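import Pool.Agent.Helper74.HG.GoalsG
import Pool.Agent.Helper61.HG.STE

/-!
# HG-STEG: the step `c a b + w l ~ a l - c w b + w l`, without conditions
-/

namespace Pool.Agent.Helper32.HG.STEG

open MvPolynomial Pool.Agent.Helper74.HG Pool.Agent.Helper61.HG.STE

theorem t : STEG := by
  intro σ f₀ a b c
  refine ⟨1, iso a b c, ?_⟩
  rw [iso_apply]
  simp only [stabS, Fin.sum_univ_one, map_add, map_mul, fw_w, fw_l, fw_ren, rename_C, fw_C]
  ring

end Pool.Agent.Helper32.HG.STEG
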