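import Pool.Agent.Helper74.HG.GoalsC
import Pool.Agent.Helper87.HG.UNIQ

/-!
# Packet HG-UNF: the topological zeta function is determined by one finite field and its extensions
-/

set_option autoImplicit false

namespace Pool.Agent.Helper32.HG.UNF

open Pool.Agent.Helper74.HG Pool.Agent.Helper87.HG.UNIQ

/-- A stratum for one field. -/
noncomputable def toS (T : (ℕ → ℂ) × Str) : Stratum := ⟨fun _ e => T.1 e, T.2.1, T.2.2⟩

lemma toS_rat (T : (ℕ → ℂ) × Str) : (toS T).rat = ratS T.2 := rfl

lemma ext_exists (K : Type) [Field K] [Finite K] (e : ℕ) (he : 1 ≤ e) :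
    ∃ (E : Type) (_ : Field E) (_ : Finite E) (_ : Algebra K E), Module.finrank K E = e := by
  obtain ⟨p, hp⟩ := CharP.exists K
  have hpp : Fact p.Prime := ⟨CharP.char_is_prime K p⟩
  have : NeZero e := ⟨by omega⟩
  exact ⟨FiniteField.Extension K p e, inferInstance, inferInstance, inferInstance,
    FiniteField.finrank_extension K p e⟩

lemma ser_eq (K : Type) [Field K] [Finite K] (E : Type) [Field E] [Finite E] [Algebra K E]
    (T : (ℕ → ℂ) × Str) : (toS T).ser (Nat.card K) (Module.finrank K E) =
      PowerSeries.C (T.1 (Module.finrank K E)) * (T.2.2.map (fac (Nat.card E))).prod := by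
  unfold Stratum.ser toS
  have h : (Nat.card E : ℂ) = (Nat.card K : ℂ) ^ Module.finrank K E := by
    rw [Module.natCard_eq_pow_finrank (K := K) (V := E), Nat.cast_pow]
  rw [h]

theorem t : UNF := by
  intro K _ _ σ _ f L L' hd hd' hL hL'
  obtain ⟨M, hM, hE, hS⟩ := hL
  obtain ⟨M', hM', hE', hS'⟩ := hL'
  have key := sum_rat (p := Nat.card K) (Finite.one_lt_card : 2 ≤ Nat.card K)
    (M.map toS ++ (M'.map toS).map neg)
    (by
      intro S hS d hd1
      rw [List.mem_append, List.mem_map, List.mem_map] at hS
      rcases hS with ⟨T, hT, rfl⟩ | ⟨S', hS', rfl⟩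
      · exact hd T.2 (hM ▸ List.mem_map_of_mem hT) d hd1
      · obtain ⟨T, hT, rfl⟩ := List.mem_map.1 hS'
        exact hd' T.2 (hM' ▸ List.mem_map_of_mem hT) d hd1)
    (by
      intro S hS
      rw [List.mem_append, List.mem_map, List.mem_map] at hS
      rcases hS with ⟨T, hT, rfl⟩ | ⟨S', hS', rfl⟩
      · exact hE T hT
      · obtain ⟨T, hT, rfl⟩ := List.mem_map.1 hS'
        exact neg_exp (toS T) (Nat.card K) (hE' T hT))
    (by
      intro e he
      obtain ⟨E, _, _, _, hfr⟩ := ext_exists K e he
      rw [List.map_append, List.sum_append, List.map_map, List.map_map, List.map_map]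
      have h1 : (M'.map (((fun S => Stratum.ser S (Nat.card K) e) ∘ neg) ∘ toS)).sum =
          - (M'.map ((fun S => S.ser (Nat.card K) e) ∘ toS)).sum := by
        rw [← sum_neg]
        exact congrArg List.sum (List.map_congr_left fun S _ => neg_ser (toS S) (Nat.card K) e)
      rw [h1]
      have h2 : (M.map ((fun S => S.ser (Nat.card K) e) ∘ toS)).sum =
          (M'.map ((fun S => S.ser (Nat.card K) e) ∘ toS)).sum := by
        have g : ∀ N : List ((ℕ → ℂ) × Str), (N.map ((fun S => S.ser (Nat.card K) e) ∘ toS)).sum =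
            (N.map fun T => PowerSeries.C (T.1 (Module.finrank K E)) *
              (T.2.2.map (fac (Nat.card E))).prod).sum := by
          intro N
          refine congrArg List.sum (List.map_congr_left fun T _ => ?_)
          rw [← ser_eq K E T, hfr]
          rfl
        rw [g M, g M']
        ext m
        rw [← hS E m, ← hS' E m]
      rw [h2, add_neg_cancel])
  rw [List.map_append, List.sum_append, List.map_map, List.map_map, List.map_map] at key
  have h1 : (M'.map ((Stratum.rat ∘ neg) ∘ toS)).sum = - (M'.map (Stratum.rat ∘ toS)).sum := by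
    rw [← sum_neg]
    exact congrArg List.sum (List.map_congr_left fun S _ => neg_rat (toS S))
  rw [h1] at key
  have g : ∀ (N : List ((ℕ → ℂ) × Str)) (P : List Str), N.map Prod.snd = P →
      (N.map (Stratum.rat ∘ toS)).sum = (P.map ratS).sum := by
    rintro N P rfl
    rw [List.map_map]
    rfl
  rw [g M L hM, g M' L' hM'] at key
  exact sub_eq_zero.1 (by rw [sub_eq_add_neg]; exact key)

end Pool.Agent.Helper32.HG.UNF
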